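import Mathlib
import Pool.Agent.R805.PropA.Comb

/-!
# An operator with property A which is not U-frequently recurrent (MP_b9874d_an)

The operator is a weighted backward shift on the complex Banach space `c₀(ℤ)`. The proof is due to
helper286.
-/

set_option autoImplicit false

namespace Pool.Agent.Results.MP_b9874d_an.PropertyANotUFR

open Filter Topology
open scoped ZeroAtInfty

/-- The upper density `limsup_N |A ∩ {1, …, N}| / N`. -/
noncomputable def upperDensity (A : Set ℕ) : ℝ :=
  open Classical in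
  limsup (fun N : ℕ => (((Finset.Icc 1 N).filter (· ∈ A)).card : ℝ) / N) atTop

/-- Property A: for every nonempty open set `U` there is a vector `x` such that the set of `n` with
`T^n x ∈ U` has positive upper density. -/
def PropertyA {X : Type} [NormedAddCommGroup X] [NormedSpace ℂ X] (T : X →L[ℂ] X) : Prop :=
  ∀ U : Set X, IsOpen U → U.Nonempty → ∃ x : X, 0 < upperDensity {n : ℕ | (T ^ n) x ∈ U}

/-- `x` is a U-frequently recurrent vector: for every open neighbourhood `V` of `x` the set of `n`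
with `T^n x ∈ V` has positive upper density. -/
def IsUFreqRecVector {X : Type} [NormedAddCommGroup X] [NormedSpace ℂ X] (T : X →L[ℂ] X)
    (x : X) : Prop :=
  ∀ V : Set X, IsOpen V → x ∈ V → 0 < upperDensity {n : ℕ | (T ^ n) x ∈ V}

/-- `T` is U-frequently recurrent: its U-frequently recurrent vectors are dense. -/
def UFrequentlyRecurrent {X : Type} [NormedAddCommGroup X] [NormedSpace ℂ X] (T : X →L[ℂ] X) :
    Prop :=
  Dense {x : X | IsUFreqRecVector T x}

/-- There is an operator on a complex Banach space which has property A and is not U-frequently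
recurrent. -/
theorem result : ∃ (X : Type) (_ : NormedAddCommGroup X) (_ : NormedSpace ℂ X)
    (_ : CompleteSpace X) (T : X →L[ℂ] X), PropertyA T ∧ ¬ UFrequentlyRecurrent T := by
  refine ⟨C₀(ℤ, ℂ), inferInstance, inferInstance, inferInstance, R805.PropA.T, ?_, ?_⟩
  · intro U hU hne
    exact R805.PropA.propA hU hne
  · intro hdense
    have he : Tendsto (fun n : ℤ => if n = 0 then (1 : ℂ) else 0) cofinite (𝓝 0) := by
      refine tendsto_const_nhds.congr' ?_
      have : ∀ᶠ n : ℤ in cofinite, n ≠ 0 := by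
        rw [eventually_cofinite]
        exact (Set.finite_singleton (0 : ℤ)).subset (by intro n hn; simpa using hn)
      filter_upwards [this] with n hn
      rw [if_neg hn]
    obtain ⟨x, hx, hxe⟩ := hdense.exists_dist_lt (R805.PropA.mk _ he)
      (show (0 : ℝ) < 1 / 4 by norm_num)
    rw [Set.mem_ofPred_eq] at hx
    have hx0 : 3 / 4 ≤ ‖x 0‖ := by
      rw [dist_eq_norm] at hxe
      have h1 := R805.PropA.c0_apply_le (R805.PropA.mk _ he - x) 0
      rw [ZeroAtInftyContinuousMap.sub_apply, R805.PropA.mk_apply, if_pos rfl] at h1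
      have h2 : ‖(1 : ℂ)‖ - ‖x 0‖ ≤ ‖1 - x 0‖ := norm_sub_norm_le _ _
      rw [norm_one] at h2
      linarith
    refine R805.PropA.comb {n : ℕ | (R805.PropA.T ^ n) x ∈ Metric.ball x (1 / 4)}
      (hx _ Metric.isOpen_ball (Metric.mem_ball_self (by norm_num))) fun q₁ => ?_
    set ε : ℝ := (1 / 2) ^ (2 * q₁ + 1) / 4 with hε
    have hεpos : 0 < ε := by positivity
    refine ⟨{n : ℕ | (R805.PropA.T ^ n) x ∈ Metric.ball x ε},
      hx _ Metric.isOpen_ball (Metric.mem_ball_self hεpos), ?_⟩
    obtain ⟨K, hK⟩ : ∃ K : ℕ, ∀ n : ℤ, n ≤ -(K : ℤ) → ‖x n‖ ≤ ε := by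
      have h1 : Tendsto x atBot (𝓝 0) :=
        (R805.PropA.c0_tendsto x).mono_left (by rw [Int.cofinite_eq]; exact le_sup_left)
      have h2 := (h1.norm.eventually (gt_mem_nhds (show ‖(0 : ℂ)‖ < ε by rwa [norm_zero])))
      obtain ⟨B, hB⟩ := eventually_atBot.1 h2
      refine ⟨(-B).toNat, fun n hn => (hB n ?_).le⟩
      have := Int.self_le_toNat (-B)
      linarith
    refine ⟨K + 1, ?_⟩
    intro n hn m hm hn1 hnm
    rw [Set.mem_ofPred_eq, Metric.mem_ball, dist_eq_norm] at hn hm
    -- the coordinate 0 of `T^n x`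
    have h1 : 1 / 2 ≤ (2 : ℝ) ^ n * ‖x n‖ := by
      have h2 := R805.PropA.c0_apply_le ((R805.PropA.T ^ n) x - x) 0
      rw [ZeroAtInftyContinuousMap.sub_apply, R805.PropA.T_pow_apply, zero_add,
        R805.PropA.a_of_nonneg (by positivity), R805.PropA.a_of_nonneg le_rfl, sub_zero] at h2
      have h3 : ‖x 0‖ - ‖(2 : ℂ) ^ (n : ℤ) * x n‖ ≤ ‖(2 : ℂ) ^ (n : ℤ) * x n - x 0‖ := by
        rw [norm_sub_rev]
        exact norm_sub_norm_le _ _
      rw [norm_mul, R805.PropA.norm_two_zpow, zpow_natCast] at h3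
      linarith
    -- the coordinate `n - m` of `T^m x`
    have h2 := R805.PropA.c0_apply_le ((R805.PropA.T ^ m) x - x) ((n : ℤ) - m)
    rw [ZeroAtInftyContinuousMap.sub_apply, R805.PropA.T_pow_apply, sub_add_cancel,
      R805.PropA.a_of_nonneg (by positivity), R805.PropA.a_of_nonpos (by omega)] at h2
    have h3 := hK ((n : ℤ) - m) (by omega)
    have h4 : ‖(2 : ℂ) ^ ((n : ℤ) - (R805.PropA.v (-((n : ℤ) - m)) : ℤ)) * x n‖ ≤ 2 * ε := by
      have := norm_sub_norm_le ((2 : ℂ) ^ ((n : ℤ) - (R805.PropA.v (-((n : ℤ) - m)) : ℤ)) * x n)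
        (x ((n : ℤ) - m))
      linarith
    rw [norm_mul, R805.PropA.norm_two_zpow, zpow_sub₀ (by norm_num), zpow_natCast,
      zpow_natCast] at h4
    set w := R805.PropA.v (-((n : ℤ) - m)) with hw
    have h5 : 2 * q₁ + 1 ≤ w := by
      by_contra hcon
      push Not at hcon
      have h6 : (2 : ℝ) ^ w ≤ 2 ^ (2 * q₁) := pow_le_pow_right₀ (by norm_num) (by omega)
      have h7 : (0 : ℝ) < 2 ^ w := by positivity
      have h8 : (2 : ℝ) ^ n / 2 ^ w * ‖x n‖ = (2 ^ n * ‖x n‖) / 2 ^ w := by ring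
      rw [h8, div_le_iff₀ h7] at h4
      have h9 : 2 * ε * 2 ^ w ≤ 2 * ε * 2 ^ (2 * q₁) := by gcongr
      have h10 : 2 * ε * 2 ^ (2 * q₁) = 1 / 4 := by
        rw [hε, pow_succ, one_div, inv_pow]
        field_simp
      linarith
    have h6 := R805.PropA.v_mem (-((n : ℤ) - m))
    rw [← hw] at h6
    rcases h6 with h6 | ⟨q, j, hj, hjj⟩
    · omega
    · have h7 : -((n : ℤ) - m) = m - n := by ring
      rw [h7] at hjj
      have h8 := abs_nonneg ((m : ℤ) - n - j * R805.PropA.Mq q)
      refine ⟨q, ?_, j, hj, ?_⟩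
      · have : (2 * q₁ + 1 : ℤ) ≤ w := by exact_mod_cast h5
        have h9 : (2 * (q₁ : ℤ) + 1) ≤ 2 * q := by linarith
        omega
      · push_cast
        have : (0 : ℤ) ≤ w := by positivity
        linarith

end Pool.Agent.Results.MP_b9874d_an.PropertyANotUFR
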